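import Pool.Agent.H10.Grig

namespace Pool.Agent.Results.MP_4717c3_al.Grig
open Pool.Agent.H10.Grig MonoidAlgebra

/-- The group algebra over the field with three elements of a torsion group need not be `π`-UU. -/
theorem result : ∃ (G : Type) (_ : Group G), (∀ g : G, IsOfFinOrder g) ∧
    ∃ u : (MonoidAlgebra (ZMod 3) G)ˣ, ∀ i ≥ 1,
      ¬ IsNilpotent ((u : MonoidAlgebra (ZMod 3) G) ^ i - 1) := by
  let x (k : Option (ZMod 3)) : G := ⟨gen k, Subgroup.subset_closure ⟨k, rfl⟩⟩
  let y (k : Option (ZMod 3)) : MonoidAlgebra (ZMod 3) G := of (ZMod 3) G (x k)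
  have y2 : ∀ k, y k * y k = 1 := fun k => by
    rw [← map_mul, show x k * x k = 1 from Subtype.ext (gen2 k), map_one]
  have y3 : ∀ {j k : ZMod 3}, j ≠ k → y j * y k = y (some (-j - k)) := fun h => by
    rw [← map_mul]; exact congrArg _ (Subtype.ext (gen3 h))
  have c : CharP (MonoidAlgebra (ZMod 3) G) 3 := charP_of_injective_algebraMap' (ZMod 3) 3
  have c3 : (3 : MonoidAlgebra (ZMod 3) G) = 0 := CharP.cast_eq_zero _ 3
  set s := 1 - y (some 0) - y (some 1) - y (some 2) with hs
  have s2 : s * s = 1 := by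
    have e1 : y (some 0) * y (some 1) = y (some 2) := y3 (by decide)
    have e2 : y (some 1) * y (some 0) = y (some 2) := y3 (by decide)
    have e3 : y (some 0) * y (some 2) = y (some 1) := y3 (by decide)
    have e4 : y (some 2) * y (some 0) = y (some 1) := y3 (by decide)
    have e5 : y (some 1) * y (some 2) = y (some 0) := y3 (by decide)
    have e6 : y (some 2) * y (some 1) = y (some 0) := y3 (by decide)
    simp only [hs, mul_sub, sub_mul, one_mul, mul_one, y2, e1, e2, e3, e4, e5, e6]
    refine .trans ?_ (show 1 + 3 = 1 by rw [c3, add_zero])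
    rw [show (3 : MonoidAlgebra (ZMod 3) G) = 1 + 1 + 1 by norm_num]
    abel
  refine ⟨G, inferInstance, torsion, ⟨y none * s, s * y none, by
    rw [mul_assoc, ← mul_assoc s, s2, one_mul, y2], by
    rw [mul_assoc, ← mul_assoc (y _), y2, one_mul, s2]⟩, fun i hi ⟨m, hm⟩ => ?_⟩
  have h : (y none * s) ^ (i * 3 ^ m) = 1 := by
    have := pow_eq_zero_of_le (Nat.lt_pow_self (by norm_num : 1 < 3)).le hm
    rwa [sub_pow_char_pow_of_commute _ _ (Commute.one_right _), one_pow, sub_eq_zero,
      ← pow_mul] at this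
  let ρ := (Representation.ofMulAction (ZMod 3) G (List Bool)).asAlgebraHom
  have r : ∀ k w, ρ (y k) (single w 1) = single (gen k w) 1 := fun k w => by
    simp only [ρ, y, Representation.asAlgebraHom_of, Representation.ofMulAction_single]; rfl
  have t : ∀ w, ρ (y none * s) (single w 1) = single ((fa ∘ σ) w) 1 := fun w => by
    have : ρ s (single w 1) = single (σ w) 1 := by
      obtain ⟨k, h1, h2, h3⟩ := tri w
      have e : ∀ v : MonoidAlgebra (ZMod 3) (List Bool), v = -v - v := fun v => by
        rw [← neg_one_smul (ZMod 3), ← one_smul (ZMod 3) v, smul_smul, ← sub_smul]; rfl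
      simp only [hs, map_sub, map_one, LinearMap.sub_apply, r, Module.End.one_apply]
      change _ - single (fg w 0) 1 - single (fg w 1) 1 - single (fg w 2) 1 = _
      rw [e (single (σ w) 1)]
      rcases (by decide : ∀ k : ZMod 3, k = 0 ∧ k + 1 = 1 ∧ k + 1 + 1 = 2 ∨ k = 1 ∧ k + 1 = 2 ∧
        k + 1 + 1 = 0 ∨ k = 2 ∧ k + 1 = 0 ∧ k + 1 + 1 = 1) k with h | h | h <;>
        rw [h.2.2] at h3 <;> rw [h.2.1] at h2 <;> rw [h.1] at h1 <;> rw [h1, h2, h3] <;> abel
    rw [map_mul, Module.End.mul_apply, this, r]; rfl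
  have p : ∀ n w, ρ ((y none * s) ^ n) (single w 1) = single ((fa ∘ σ)^[n] w) 1 := fun n => by
    induction n with
    | zero => simp
    | succ n ih => intro w; rw [pow_succ, map_mul, Module.End.mul_apply, t, ih]; rfl
  refine inf (i * 3 ^ m) (by positivity) (funext fun w => ?_)
  have := p (i * 3 ^ m) w
  rw [h, map_one, Module.End.one_apply] at this
  exact (single_left_injective one_ne_zero this).symm

end Pool.Agent.Results.MP_4717c3_al.Grig
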